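import Mathlib

/-!
# The defect of the heights and the doubling map

Ten residues `x i` modulo an odd prime `r` that satisfy the six relations `∑ i, eps j i * x i = 0`.
If the number `∑ i, (h * x i).val / r` is odd for all `h ≠ 0` then there is an `h ≠ 0` such that for
all `n` the signs of `sin (2 π 2 ^ n h x i / r)`, `i = 0, …, 9`, form a row of the table `dic`, up to
a common sign.
-/

open Finset

namespace Pool.Agent.Helper79.CL

/-- the six sign vectors orthogonal to the vectors of residues -/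
def eps : Fin 6 → Fin 10 → ℤ :=
  ![![1, 1, 1, 1, 1, 1, 1, 1, 1, 1],
    ![1, 1, -1, -1, 1, 1, -1, -1, -1, -1],
    ![1, -1, 1, -1, -1, -1, -1, -1, 1, 1],
    ![-1, 1, -1, 1, -1, -1, -1, 1, -1, 1],
    ![-1, -1, 1, 1, 1, -1, 1, -1, -1, -1],
    ![-1, -1, -1, -1, -1, 1, 1, 1, 1, -1]]

/-- the six vectors of residues with values `1`, `-1` -/
def dic : Fin 6 → Fin 10 → ℤ :=
  ![![1, 1, 1, -1, -1, -1, 1, 1, -1, -1],
    ![1, -1, -1, 1, 1, -1, -1, 1, 1, -1],
    ![1, -1, -1, 1, -1, 1, 1, -1, -1, 1],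
    ![-1, 1, 1, 1, -1, 1, -1, -1, 1, -1],
    ![-1, 1, -1, -1, 1, -1, 1, -1, 1, 1],
    ![-1, -1, 1, -1, 1, 1, -1, 1, -1, 1]]

theorem eps_cases : ∀ j i, eps j i = 1 ∨ eps j i = -1 := by decide

theorem sum_eps : ∀ i, ∑ j, eps j i = 0 := by decide

theorem frame (B : Fin 10 → ℤ) : ∑ j, (∑ i, eps j i * B i) ^ 2 ≤ 12 * ∑ i, B i ^ 2 := by
  have h : 12 * ∑ i, B i ^ 2 - ∑ j, (∑ i, eps j i * B i) ^ 2 =
      ∑ k, (∑ i, dic k i * B i) ^ 2 := by
    simp [Fin.sum_univ_succ, eps, dic]
    ring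
  have h2 : 0 ≤ ∑ k, (∑ i, dic k i * B i) ^ 2 := sum_nonneg fun k _ => sq_nonneg _
  linarith

/-- the sign vectors orthogonal to the rows of `eps` -/
theorem dictator : ∀ b0 b1 b2 b3 b4 b5 b6 b7 b8 b9 : Bool,
    (∀ j, ∑ i, eps j i * (if ![b0, b1, b2, b3, b4, b5, b6, b7, b8, b9] i then 1 else -1) = 0) →
      ∃ k, (∀ i, (if ![b0, b1, b2, b3, b4, b5, b6, b7, b8, b9] i then 1 else -1) = dic k i) ∨
        (∀ i, (if ![b0, b1, b2, b3, b4, b5, b6, b7, b8, b9] i then 1 else -1) = -dic k i) := by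
  decide +kernel

theorem double_sum {G : Type*} [AddCommGroup G] [Fintype G] (f : G → ℤ) (h0 : ∑ u, f u = 0) :
    ∑ u, ∑ v, (f u + f v - f (u + v)) ^ 2 = 3 * Fintype.card G * ∑ u, f u ^ 2 := by
  have e1 : ∀ u v, (f u + f v - f (u + v)) ^ 2 = f u ^ 2 + f v ^ 2 + f (u + v) ^ 2 +
      2 * (f u * f v) - 2 * (f u * f (u + v)) - 2 * (f v * f (u + v)) := by
    intro u v
    ring
  have s1 : ∀ u, ∑ v, f (u + v) ^ 2 = ∑ v, f v ^ 2 := fun u =>
    Equiv.sum_comp (Equiv.addLeft u) fun v => f v ^ 2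
  have s2 : ∀ u, ∑ v, f (u + v) = 0 := fun u => by
    rw [← h0]
    exact Equiv.sum_comp (Equiv.addLeft u) f
  have s3 : ∀ v, ∑ u, f (u + v) = 0 := fun v => by
    rw [← h0]
    exact Equiv.sum_comp (Equiv.addRight v) f
  have t1 : ∑ u, ∑ v, f v * f (u + v) = 0 := by
    rw [sum_comm]
    refine sum_eq_zero fun v _ => ?_
    rw [← mul_sum, s3, mul_zero]
  simp only [e1, sum_add_distrib, sum_sub_distrib, ← mul_sum, s1, s2, h0, t1, sum_const, card_univ,
    nsmul_eq_mul, mul_zero]
  ring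

section

variable {r : ℕ} [hr : Fact r.Prime] (x : Fin 10 → ZMod r)

/-- twice the distance of the representative from `r / 2` -/
def dist (h : ZMod r) (i : Fin 10) : ℤ := 2 * ((h * x i).val : ℤ) - r

/-- the sign -/
def sgn (h : ZMod r) (i : Fin 10) : Bool := decide (2 * (h * x i).val < r)

variable {x}

theorem dist_neg {h : ZMod r} {i : Fin 10} (hx : h * x i ≠ 0) : dist x (-h) i = -dist x h i := by
  have : NeZero (h * x i) := ⟨hx⟩
  have h1 : (-h * x i).val = r - (h * x i).val := by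
    rw [neg_mul]
    exact ZMod.val_neg_of_ne_zero _
  have h2 := ZMod.val_lt (h * x i)
  rw [dist, dist, h1, Nat.cast_sub h2.le]
  ring

theorem dist_sq {h : ZMod r} {i : Fin 10} (hx : h * x i ≠ 0) : dist x h i ^ 2 < (r : ℤ) ^ 2 := by
  have h1 : 0 < (h * x i).val := (ZMod.val_pos).2 hx
  have h2 := ZMod.val_lt (h * x i)
  rw [dist]
  have h3 : (0 : ℤ) < (h * x i).val := by exact_mod_cast h1
  have h4 : ((h * x i).val : ℤ) < r := by exact_mod_cast h2
  nlinarith

theorem dist_add (u v : ZMod r) (i : Fin 10) :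
    ∃ b : Bool, dist x (u + v) i - dist x u i - dist x v i = r * (if b then 1 else -1) := by
  have e : (u + v) * x i = u * x i + v * x i := by ring
  by_cases h : (u * x i).val + (v * x i).val < r
  · refine ⟨true, ?_⟩
    rw [dist, dist, dist, e, ZMod.val_add_of_lt h]
    push_cast
    simp
    ring
  · refine ⟨false, ?_⟩
    push Not at h
    rw [dist, dist, dist, e]
    have h1 := ZMod.val_add_val_of_le h
    have h2 : ((u * x i).val : ℤ) + (v * x i).val = (u * x i + v * x i).val + r := by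
      exact_mod_cast h1
    rw [if_neg (by decide)]
    linarith

theorem dist_double (u : ZMod r) (i : Fin 10) :
    dist x (2 * u) i - 2 * dist x u i = r * (if sgn x u i then 1 else -1) := by
  have e : 2 * u * x i = u * x i + u * x i := by ring
  by_cases h : (u * x i).val + (u * x i).val < r
  · have hs : sgn x u i = true := by
      rw [sgn, decide_eq_true_iff]
      omega
    rw [hs, dist, dist, e, ZMod.val_add_of_lt h]
    push_cast
    simp
    ring
  · have hs : sgn x u i = false := by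
      rw [sgn, decide_eq_false_iff_not]
      omega
    push Not at h
    rw [hs, dist, dist, e]
    have h1 := ZMod.val_add_val_of_le h
    have h2 : ((u * x i).val : ℤ) + (u * x i).val = (u * x i + u * x i).val + r := by
      exact_mod_cast h1
    rw [if_neg (by decide)]
    linarith

/-- the defect -/
def defect (x : Fin 10 → ZMod r) (h : ZMod r) (j : Fin 6) : ℤ :=
  (∑ i, eps j i * dist x h i) / (4 * r)

/-- The sum of the representatives of the multiples by `h ≠ 0` is an odd multiple of `r`. -/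
def AllOdd (x : Fin 10 → ZMod r) : Prop :=
  ∀ h : ZMod r, h ≠ 0 → ∃ m : ℤ, ∑ i, ((h * x i).val : ℤ) = r * (2 * m + 1)

variable (hr2 : r ≠ 2) (hx : ∀ i, x i ≠ 0) (he : ∀ j, ∑ i, (eps j i : ZMod r) * x i = 0)
  (ho : AllOdd x)

include hr2 he ho

theorem defect_spec {h : ZMod r} (hh : h ≠ 0) (j : Fin 6) :
    4 * r * defect x h j = ∑ i, eps j i * dist x h i := by
  obtain ⟨m, hm⟩ := ho h hh
  rw [defect]
  refine Int.mul_ediv_cancel' ?_
  -- the sum of the residues with negative sign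
  have h1 : ∑ i, (((1 - eps j i) / 2 : ℤ) : ZMod r) * (h * x i) = 0 := by
    have h2 : (2 : ZMod r) * ∑ i, (((1 - eps j i) / 2 : ℤ) : ZMod r) * (h * x i) =
        h * (∑ i, (eps 0 i : ZMod r) * x i - ∑ i, (eps j i : ZMod r) * x i) := by
      rw [mul_sum, ← sum_sub_distrib, mul_sum]
      refine sum_congr rfl fun i _ => ?_
      have h3 : (eps 0 i : ℤ) = 1 := by
        fin_cases i <;> rfl
      rw [h3]
      rcases eps_cases j i with h4 | h4 <;> rw [h4] <;> norm_num <;> ring
    rw [he, he, sub_zero, mul_zero] at h2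
    have h5 : (2 : ZMod r) ≠ 0 := by
      intro h6
      have h7 : ((2 : ℕ) : ZMod r) = 0 := by exact_mod_cast h6
      rw [ZMod.natCast_eq_zero_iff] at h7
      exact hr2 ((Nat.prime_dvd_prime_iff_eq hr.out Nat.prime_two).1 h7)
    exact (mul_eq_zero.1 h2).resolve_left h5
  have h2 : (r : ℤ) ∣ ∑ i, ((1 - eps j i) / 2) * ((h * x i).val : ℤ) := by
    rw [← ZMod.intCast_zmod_eq_zero_iff_dvd]
    push_cast
    simpa using h1
  obtain ⟨k, hk⟩ := h2
  have h3 : ∑ i, eps j i * dist x h i = 2 * ∑ i, ((h * x i).val : ℤ) -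
      4 * ∑ i, ((1 - eps j i) / 2) * ((h * x i).val : ℤ) - r * ∑ i, eps j i := by
    rw [mul_sum, mul_sum, mul_sum, ← sum_sub_distrib, ← sum_sub_distrib]
    refine sum_congr rfl fun i _ => ?_
    rw [dist]
    rcases eps_cases j i with h4 | h4 <;> rw [h4] <;> norm_num <;> ring
  have h4 : ∃ e : ℤ, ∑ i, eps j i = 4 * e + 2 := by
    have : ∀ j : Fin 6, ∑ i, eps j i = 10 ∨ ∑ i, eps j i = -2 := by decide
    rcases this j with h5 | h5
    · exact ⟨2, by rw [h5]; norm_num⟩
    · exact ⟨-1, by rw [h5]; norm_num⟩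
  obtain ⟨e, he'⟩ := h4
  rw [h3, hm, hk, he']
  exact ⟨m - k - e, by ring⟩

theorem sum_defect {h : ZMod r} (hh : h ≠ 0) : ∑ j, defect x h j = 0 := by
  have h1 : (4 * r : ℤ) * ∑ j, defect x h j = 0 := by
    rw [mul_sum]
    simp only [defect_spec hr2 he ho hh]
    rw [sum_comm]
    refine sum_eq_zero fun i _ => ?_
    rw [← sum_mul, sum_eps, zero_mul]
  have h2 : (4 * r : ℤ) ≠ 0 := by
    have := hr.out.pos
    positivity
  exact (mul_eq_zero.1 h1).resolve_left h2

include hx in
theorem defect_neg {h : ZMod r} (hh : h ≠ 0) (j : Fin 6) :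
    defect x (-h) j = -defect x h j := by
  have h2 : (4 * r : ℤ) ≠ 0 := by
    have := hr.out.pos
    positivity
  refine mul_left_cancel₀ h2 ?_
  rw [mul_neg, defect_spec hr2 he ho hh, defect_spec hr2 he ho (neg_ne_zero.2 hh),
    ← sum_neg_distrib]
  refine sum_congr rfl fun i _ => ?_
  rw [dist_neg (mul_ne_zero hh (hx i)), mul_neg]

theorem defect_add {u v : ZMod r} (hu : u ≠ 0) (hv : v ≠ 0) (huv : u + v ≠ 0) :
    ∃ b : Fin 10 → Bool, ∀ j, 4 * (defect x (u + v) j - defect x u j - defect x v j) =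
      ∑ i, eps j i * (if b i then 1 else -1) := by
  choose b hb using dist_add (x := x) u v
  refine ⟨b, fun j => ?_⟩
  have h2 : (r : ℤ) ≠ 0 := by
    have := hr.out.pos
    positivity
  refine mul_left_cancel₀ h2 ?_
  have h3 : (r : ℤ) * (4 * (defect x (u + v) j - defect x u j - defect x v j)) =
      4 * r * defect x (u + v) j - 4 * r * defect x u j - 4 * r * defect x v j := by ring
  rw [h3, defect_spec hr2 he ho hu, defect_spec hr2 he ho hv, defect_spec hr2 he ho huv,
    ← sum_sub_distrib, ← sum_sub_distrib, mul_sum]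
  refine sum_congr rfl fun i _ => ?_
  rw [← mul_sub, ← mul_sub, hb]
  ring

theorem defect_double {u : ZMod r} (hu : u ≠ 0) (j : Fin 6) :
    4 * (defect x (2 * u) j - 2 * defect x u j) =
      ∑ i, eps j i * (if sgn x u i then 1 else -1) := by
  have h5 : (2 : ZMod r) ≠ 0 := by
    intro h6
    have h7 : ((2 : ℕ) : ZMod r) = 0 := by exact_mod_cast h6
    rw [ZMod.natCast_eq_zero_iff] at h7
    exact hr2 ((Nat.prime_dvd_prime_iff_eq hr.out Nat.prime_two).1 h7)
  have h2 : (r : ℤ) ≠ 0 := by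
    have := hr.out.pos
    positivity
  refine mul_left_cancel₀ h2 ?_
  have h3 : (r : ℤ) * (4 * (defect x (2 * u) j - 2 * defect x u j)) =
      4 * r * defect x (2 * u) j - 2 * (4 * r * defect x u j) := by ring
  rw [h3, defect_spec hr2 he ho hu, defect_spec hr2 he ho (mul_ne_zero h5 hu), mul_sum, mul_sum,
    ← sum_sub_distrib]
  refine sum_congr rfl fun i _ => ?_
  have h4 := dist_double (x := x) u i
  linear_combination eps j i * h4

omit hr hr2 he ho in
/-- the parity of a sum of squares -/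
theorem even_sq {f : Fin 6 → ℤ} (hf : ∑ j, f j = 0) : Even (∑ j, f j ^ 2) := by
  have h1 : ∑ j, f j ^ 2 = ∑ j, f j * (f j - 1) := by
    have : ∑ j, f j * (f j - 1) = ∑ j, f j ^ 2 - ∑ j, f j := by
      rw [← sum_sub_distrib]
      exact sum_congr rfl fun j _ => by ring
    rw [this, hf, sub_zero]
  rw [h1]
  refine Finset.even_sum _ fun j _ => ?_
  exact Int.even_mul_pred_self _

omit hr hr2 he ho in
theorem sq_le_six {f : Fin 6 → ℤ} {b : Fin 10 → Bool}
    (h : ∀ j, 4 * f j = ∑ i, eps j i * (if b i then 1 else -1)) : ∑ j, f j ^ 2 ≤ 6 := by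
  have h1 := frame fun i => if b i then 1 else -1
  have h2 : ∀ j, (∑ i, eps j i * (if b i then (1 : ℤ) else -1)) ^ 2 = 16 * f j ^ 2 := by
    intro j
    rw [← h]
    ring
  have h3 : ∀ i, (if b i then (1 : ℤ) else -1) ^ 2 = 1 := by
    intro i
    split_ifs <;> norm_num
  simp only [h2, h3, ← mul_sum, sum_const, card_univ, Fintype.card_fin, nsmul_eq_mul] at h1
  have h4 : ∑ j, f j = 0 := by
    have h5 : (4 : ℤ) * ∑ j, f j = 0 := by
      rw [mul_sum]
      simp only [h]
      rw [sum_comm]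
      refine sum_eq_zero fun i _ => ?_
      rw [← sum_mul, sum_eps, zero_mul]
    linarith
  obtain ⟨m, hm⟩ := even_sq h4
  norm_num at h1
  omega

theorem two_le {u : ZMod r} (hu : u ≠ 0) {j : Fin 6} (hj : defect x u j ≠ 0) :
    2 ≤ ∑ j, defect x u j ^ 2 := by
  obtain ⟨m, hm⟩ := even_sq (sum_defect hr2 he ho hu)
  have h1 : 0 < defect x u j ^ 2 := by positivity
  have h2 : defect x u j ^ 2 ≤ ∑ j, defect x u j ^ 2 :=
    single_le_sum (f := fun j => defect x u j ^ 2) (fun j _ => sq_nonneg _) (mem_univ j)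
  omega

/-- doubling preserves a nonzero defect -/
theorem double_ne {u : ZMod r} (hu : u ≠ 0) (h : ∃ j, defect x u j ≠ 0) :
    ∃ j, defect x (2 * u) j ≠ 0 := by
  by_contra hcon
  push Not at hcon
  obtain ⟨j, hj⟩ := h
  have h1 := sq_le_six (f := fun j => defect x (2 * u) j - 2 * defect x u j)
    (defect_double hr2 he ho hu)
  have h2 := two_le hr2 he ho hu hj
  have h3 : ∑ j, (defect x (2 * u) j - 2 * defect x u j) ^ 2 = 4 * ∑ j, defect x u j ^ 2 := by
    rw [mul_sum]
    refine sum_congr rfl fun j _ => ?_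
    rw [hcon]
    ring
  rw [h3] at h1
  omega

include hx in
/-- there is a multiple without defect -/
theorem exists_zero : ∃ h : ZMod r, h ≠ 0 ∧ ∀ j, defect x h j = 0 := by
  classical
  by_contra hcon
  push Not at hcon
  have : NeZero r := ⟨hr.out.ne_zero⟩
  let f : ZMod r → Fin 6 → ℤ := fun u j => if u = 0 then 0 else defect x u j
  have f0 : ∀ j, f 0 j = 0 := fun j => if_pos rfl
  have f1 : ∀ {u}, u ≠ 0 → ∀ j, f u j = defect x u j := fun hu j => if_neg hu
  have fneg : ∀ u j, f (-u) j = -f u j := by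
    intro u j
    by_cases hu : u = 0
    · rw [hu, neg_zero, f0, neg_zero]
    · rw [f1 hu, f1 (neg_ne_zero.2 hu), defect_neg hr2 hx he ho hu]
  have fsum : ∀ j, ∑ u, f u j = 0 := by
    intro j
    have h1 : ∑ u, f u j = ∑ u, f (-u) j := (Equiv.sum_comp (Equiv.neg (ZMod r)) fun u => f u j).symm
    simp only [fneg, sum_neg_distrib] at h1
    linarith
  have hE : ∑ u, ∑ v, ∑ j, (f u j + f v j - f (u + v) j) ^ 2 = 3 * r * ∑ u, ∑ j, f u j ^ 2 := by
    have h1 : ∑ u, ∑ v, ∑ j, (f u j + f v j - f (u + v) j) ^ 2 =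
        ∑ j, ∑ u, ∑ v, (f u j + f v j - f (u + v) j) ^ 2 := by
      have h2 : ∀ u, ∑ v, ∑ j, (f u j + f v j - f (u + v) j) ^ 2 =
          ∑ j, ∑ v, (f u j + f v j - f (u + v) j) ^ 2 := fun u => sum_comm
      simp only [h2]
      exact sum_comm
    rw [h1]
    simp only [double_sum _ (fsum _), ZMod.card]
    rw [← mul_sum, sum_comm]
  have hr3 : (3 : ℤ) ≤ r := by
    have h1 := hr.out.two_le
    have h2 : 3 ≤ r := by omega
    exact_mod_cast h2
  -- the upper bound
  have hU : ∑ u, ∑ v, ∑ j, (f u j + f v j - f (u + v) j) ^ 2 ≤ (r - 1) * (6 * r - 12) := by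
    have h1 : ∀ u, ∑ v, ∑ j, (f u j + f v j - f (u + v) j) ^ 2 ≤
        (6 * r - 12) - (if u = 0 then (6 * r - 12 : ℤ) else 0) := by
      intro u
      by_cases hu : u = 0
      · rw [if_pos hu, sub_self, hu]
        refine (sum_eq_zero fun v _ => sum_eq_zero fun j _ => ?_).le
        rw [f0, zero_add, zero_add, sub_self]
        norm_num
      · rw [if_neg hu, sub_zero]
        have h2 : ∀ v, ∑ j, (f u j + f v j - f (u + v) j) ^ 2 ≤
            6 - (if v = 0 then (6 : ℤ) else 0) - (if v = -u then (6 : ℤ) else 0) := by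
          intro v
          by_cases hv : v = 0
          · have h3 : v ≠ -u := by
              rw [hv]
              exact (neg_ne_zero.2 hu).symm
            rw [if_pos hv, if_neg h3, hv]
            refine (sum_eq_zero fun j _ => ?_).le
            rw [f0, add_zero, add_zero, sub_self]
            norm_num
          · by_cases h3 : v = -u
            · rw [if_neg hv, if_pos h3, h3]
              refine (sum_eq_zero fun j _ => ?_).le
              rw [fneg, add_neg_cancel, add_neg_cancel, f0]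
              norm_num
            · rw [if_neg hv, if_neg h3]
              have h4 : u + v ≠ 0 := fun h => h3 (by linear_combination h)
              obtain ⟨b, hb⟩ := defect_add hr2 he ho hu hv h4
              have h5 := sq_le_six (f := fun j => defect x (u + v) j - defect x u j -
                defect x v j) hb
              refine le_trans (le_of_eq ?_) (h5.trans (by norm_num))
              refine sum_congr rfl fun j _ => ?_
              rw [f1 hu, f1 hv, f1 h4]
              ring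
        refine (sum_le_sum fun v _ => h2 v).trans (le_of_eq ?_)
        rw [sum_sub_distrib, sum_sub_distrib, sum_ite_eq' univ, sum_ite_eq' univ, sum_const,
          card_univ, ZMod.card, if_pos (mem_univ _), if_pos (mem_univ _), nsmul_eq_mul]
        ring
    refine (sum_le_sum fun u _ => h1 u).trans (le_of_eq ?_)
    rw [sum_sub_distrib, sum_ite_eq' univ, sum_const, card_univ, ZMod.card,
      if_pos (mem_univ _), nsmul_eq_mul]
    ring
  -- the lower bound
  have hL : 2 * ((r : ℤ) - 1) ≤ ∑ u, ∑ j, f u j ^ 2 := by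
    have h1 : ∀ u, (2 : ℤ) - (if u = 0 then (2 : ℤ) else 0) ≤ ∑ j, f u j ^ 2 := by
      intro u
      by_cases hu : u = 0
      · rw [if_pos hu, sub_self]
        exact sum_nonneg fun j _ => sq_nonneg _
      · rw [if_neg hu, sub_zero]
        obtain ⟨j, hj⟩ := hcon u hu
        refine (two_le hr2 he ho hu hj).trans (le_of_eq ?_)
        exact sum_congr rfl fun j _ => by rw [f1 hu]
    refine le_trans (le_of_eq ?_) (sum_le_sum fun u _ => h1 u)
    rw [sum_sub_distrib, sum_ite_eq' univ, sum_const, card_univ, ZMod.card,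
      if_pos (mem_univ _), nsmul_eq_mul]
    ring
  rw [hE] at hU
  nlinarith

include hx in
/-- there is a multiple without defect, together with its multiples by the powers of two -/
theorem exists_zero_pow : ∃ h : ZMod r, h ≠ 0 ∧ ∀ (n : ℕ) j, defect x (2 ^ n * h) j = 0 := by
  obtain ⟨h, hh, h0⟩ := exists_zero hr2 hx he ho
  refine ⟨h, hh, fun n => ?_⟩
  by_contra hcon
  push Not at hcon
  have h5 : (2 : ZMod r) ≠ 0 := by
    intro h6
    have h7 : ((2 : ℕ) : ZMod r) = 0 := by exact_mod_cast h6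
    rw [ZMod.natCast_eq_zero_iff] at h7
    exact hr2 ((Nat.prime_dvd_prime_iff_eq hr.out Nat.prime_two).1 h7)
  have h1 : ∀ k, ∃ j, defect x (2 ^ (n + k) * h) j ≠ 0 := by
    intro k
    induction k with
    | zero => simpa using hcon
    | succ k ih =>
      have h2 := double_ne hr2 he ho (mul_ne_zero (pow_ne_zero (n + k) h5) hh) ih
      have e : (2 : ZMod r) ^ (n + (k + 1)) * h = 2 * (2 ^ (n + k) * h) := by ring
      rwa [e]
  have h2 : n + (n * (r - 1) - n) = (r - 1) * n := by
    have h3 := hr.out.two_le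
    have h4 : n ≤ n * (r - 1) := Nat.le_mul_of_pos_right n (by omega)
    rw [Nat.add_sub_cancel' h4, mul_comm]
  obtain ⟨j, hj⟩ := h1 (n * (r - 1) - n)
  rw [h2, pow_mul, ZMod.pow_card_sub_one_eq_one h5, one_pow, one_mul] at hj
  exact hj (h0 j)

include hx in
/-- **Digits.** -/
theorem exists_digits : ∃ h : ZMod r, h ≠ 0 ∧ ∀ n : ℕ, ∃ k : Fin 6,
    (∀ i, (if sgn x (2 ^ n * h) i then (1 : ℤ) else -1) = dic k i) ∨
      (∀ i, (if sgn x (2 ^ n * h) i then (1 : ℤ) else -1) = -dic k i) := by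
  obtain ⟨h, hh, h0⟩ := exists_zero_pow hr2 hx he ho
  refine ⟨h, hh, fun n => ?_⟩
  have h5 : (2 : ZMod r) ≠ 0 := by
    intro h6
    have h7 : ((2 : ℕ) : ZMod r) = 0 := by exact_mod_cast h6
    rw [ZMod.natCast_eq_zero_iff] at h7
    exact hr2 ((Nat.prime_dvd_prime_iff_eq hr.out Nat.prime_two).1 h7)
  have h1 := defect_double hr2 he ho (mul_ne_zero (pow_ne_zero n h5) hh)
  have e : (2 : ZMod r) * (2 ^ n * h) = 2 ^ (n + 1) * h := by ring
  simp only [e, h0, mul_zero, sub_zero] at h1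
  have h2 := dictator (sgn x (2 ^ n * h) 0) (sgn x (2 ^ n * h) 1) (sgn x (2 ^ n * h) 2)
    (sgn x (2 ^ n * h) 3) (sgn x (2 ^ n * h) 4) (sgn x (2 ^ n * h) 5) (sgn x (2 ^ n * h) 6)
    (sgn x (2 ^ n * h) 7) (sgn x (2 ^ n * h) 8) (sgn x (2 ^ n * h) 9)
  have h3 : (![sgn x (2 ^ n * h) 0, sgn x (2 ^ n * h) 1, sgn x (2 ^ n * h) 2,
      sgn x (2 ^ n * h) 3, sgn x (2 ^ n * h) 4, sgn x (2 ^ n * h) 5, sgn x (2 ^ n * h) 6,
      sgn x (2 ^ n * h) 7, sgn x (2 ^ n * h) 8, sgn x (2 ^ n * h) 9] : Fin 10 → Bool) =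
      sgn x (2 ^ n * h) := by
    funext i
    fin_cases i <;> rfl
  rw [h3] at h2
  exact h2 fun j => (h1 j).symm

end

end Pool.Agent.Helper79.CL
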